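import Mathlib

set_option autoImplicit false

/-!
# MP_3da5e8: `(n,e) → (9,18)` holds only for `(n,e) = (9,18)`

For `n ≥ 10` and every `e` we construct a graph with `n` vertices and `e` edges in which no nine
vertices span exactly `18` edges.  Up to complementation, and with the exception of
`(n,e) = (12,33)`, the graph is the disjoint union of a complete graph with at most two edges
removed and of a sparse bipartite graph (a subgraph of a union of copies of `K_{6,6}` minus a
perfect matching and of a small complete bipartite graph).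
-/

namespace Pool.Agent.Results.MP_3da5e8_co.OnlyTrivialPair

open SimpleGraph Finset

/-- The number of edges of `G` spanned by the vertex set `S`. -/
noncomputable def spanned {n : ℕ} (G : SimpleGraph (Fin n)) (S : Finset (Fin n)) : ℕ :=
  (G.induce (S : Set (Fin n))).edgeSet.ncard

/-- `(n,e) → (k,l)`: every graph with `n` vertices and `e` edges has a `k`-vertex induced
subgraph with exactly `l` or exactly `C(k,2) - l` edges. -/
def Arrow (n e k l : ℕ) : Prop :=
  ∀ G : SimpleGraph (Fin n), G.edgeSet.ncard = e →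
    ∃ S : Finset (Fin n), S.card = k ∧ (spanned G S = l ∨ spanned G S = k.choose 2 - l)

/-! ### counting ordered adjacent pairs -/

open Classical in
/-- twice the number of edges spanned by `S` -/
noncomputable def D {V : Type} (G : SimpleGraph V) (S : Finset V) : ℕ :=
  ∑ x ∈ S, ∑ y ∈ S, if G.Adj x y then 1 else 0

theorem D_eq {V : Type} (G : SimpleGraph V) [DecidableRel G.Adj] (S : Finset V) :
    D G S = ∑ x ∈ S, ∑ y ∈ S, if G.Adj x y then 1 else 0 := by
  unfold D
  congr!

theorem D_univ {V : Type} [Fintype V] (G : SimpleGraph V) :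
    D G univ = 2 * G.edgeSet.ncard := by
  classical
  rw [D_eq, ← coe_edgeFinset, Set.ncard_coe_finset, ← G.sum_degrees_eq_twice_card_edges]
  apply Finset.sum_congr rfl
  intro x _
  rw [← card_neighborFinset_eq_degree, ← Finset.card_filter]
  congr 1
  ext y
  simp

theorem D_comap {V W : Type} (f : W ↪ V) (G : SimpleGraph V) (S : Finset W) :
    D (G.comap f) S = D G (S.map f) := by
  classical
  rw [D_eq, D_eq, Finset.sum_map]
  apply Finset.sum_congr rfl
  intro x _
  rw [Finset.sum_map]
  rfl

theorem D_spanned {n : ℕ} (G : SimpleGraph (Fin n)) (S : Finset (Fin n)) :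
    D G S = 2 * spanned G S := by
  classical
  unfold spanned
  rw [← D_univ, SimpleGraph.induce, D_comap]
  congr 1
  ext x
  simp

theorem D_mono {V : Type} {G G' : SimpleGraph V} (h : G ≤ G') (S : Finset V) :
    D G S ≤ D G' S := by
  classical
  rw [D_eq, D_eq]
  apply Finset.sum_le_sum
  intro x _
  apply Finset.sum_le_sum
  intro y _
  by_cases hxy : G.Adj x y
  · rw [if_pos hxy, if_pos (h hxy)]
  · rw [if_neg hxy]
    exact Nat.zero_le _

theorem D_subset {V : Type} (G : SimpleGraph V) {S T : Finset V} (h : S ⊆ T) :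
    D G S ≤ D G T := by
  classical
  rw [D_eq, D_eq]
  calc ∑ x ∈ S, ∑ y ∈ S, (if G.Adj x y then 1 else 0)
      ≤ ∑ x ∈ S, ∑ y ∈ T, (if G.Adj x y then 1 else 0) :=
        Finset.sum_le_sum fun x _ => Finset.sum_le_sum_of_subset h
    _ ≤ _ := Finset.sum_le_sum_of_subset h

theorem D_compl {V : Type} (G : SimpleGraph V) (S : Finset V) :
    D Gᶜ S + D G S + S.card = S.card * S.card := by
  classical
  rw [D_eq, D_eq, ← Finset.sum_add_distrib]
  have h : ∀ x ∈ S, (∑ y ∈ S, (if Gᶜ.Adj x y then 1 else 0)) +
      (∑ y ∈ S, (if G.Adj x y then 1 else 0)) + 1 = S.card := by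
    intro x hx
    have h1 : (∑ y ∈ S, if x = y then 1 else 0) = 1 := by
      rw [Finset.sum_ite_eq, if_pos hx]
    calc (∑ y ∈ S, (if Gᶜ.Adj x y then 1 else 0)) +
          (∑ y ∈ S, (if G.Adj x y then 1 else 0)) + 1
        = (∑ y ∈ S, (if Gᶜ.Adj x y then 1 else 0)) +
          (∑ y ∈ S, (if G.Adj x y then 1 else 0)) + ∑ y ∈ S, (if x = y then 1 else 0) := by
          rw [h1]
      _ = ∑ y ∈ S, 1 := by
          rw [← Finset.sum_add_distrib, ← Finset.sum_add_distrib]
          apply Finset.sum_congr rfl
          intro y _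
          by_cases hxy : x = y
          · subst hxy; simp
          · by_cases hadj : G.Adj x y
            · simp [hxy, hadj]
            · simp [hxy, hadj]
      _ = S.card := by rw [Finset.card_eq_sum_ones]
  have h2 : ∑ x ∈ S, ((∑ y ∈ S, (if Gᶜ.Adj x y then 1 else 0)) +
      (∑ y ∈ S, (if G.Adj x y then 1 else 0)) + 1) = ∑ x ∈ S, S.card := Finset.sum_congr rfl h
  rw [Finset.sum_add_distrib, Finset.sum_const, Finset.sum_const, smul_eq_mul, smul_eq_mul,
    mul_one] at h2
  exact h2

theorem D_sum {V W : Type} (G : SimpleGraph V) (H : SimpleGraph W) (S : Finset (V ⊕ W)) :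
    D (G ⊕g H) S = D G S.toLeft + D H S.toRight := by
  classical
  rw [D_eq, D_eq, D_eq]
  conv_lhs => rw [← S.toLeft_disjSum_toRight]
  rw [Finset.sum_disjSum]
  congr 1
  · apply Finset.sum_congr rfl
    intro x _
    rw [Finset.sum_disjSum]
    simp
  · apply Finset.sum_congr rfl
    intro x _
    rw [Finset.sum_disjSum]
    simp

/-- Removing vertices. -/
theorem D_removal {V : Type} [Fintype V] [DecidableEq V] (G : SimpleGraph V)
    [DecidableRel G.Adj] (S : Finset V) :
    D G S + 2 * ∑ x ∈ Sᶜ, G.degree x = D G univ + D G Sᶜ := by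
  have hdeg : ∀ x, G.degree x = ∑ y, if G.Adj x y then 1 else 0 := by
    intro x
    rw [← card_neighborFinset_eq_degree, ← Finset.card_filter]
    congr 1
    ext y
    simp
  simp_rw [hdeg]
  rw [D_eq, D_eq, D_eq]
  have h1 : ∀ x : V, ∑ y, (if G.Adj x y then 1 else 0) =
      ∑ y ∈ S, (if G.Adj x y then 1 else 0) + ∑ y ∈ Sᶜ, (if G.Adj x y then 1 else 0) :=
    fun x => (Finset.sum_add_sum_compl S _).symm
  simp_rw [h1]
  rw [← Finset.sum_add_sum_compl S (fun x => ∑ y ∈ S, (if G.Adj x y then 1 else 0) +
    ∑ y ∈ Sᶜ, (if G.Adj x y then 1 else 0))]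
  simp only [Finset.sum_add_distrib]
  have h2 : ∑ x ∈ S, ∑ y ∈ Sᶜ, (if G.Adj x y then 1 else 0) =
      ∑ x ∈ Sᶜ, ∑ y ∈ S, (if G.Adj x y then 1 else 0) := by
    rw [Finset.sum_comm]
    apply Finset.sum_congr rfl
    intro x _
    apply Finset.sum_congr rfl
    intro y _
    simp only [G.adj_comm]
  rw [h2]
  ring

/-- a subgraph with a prescribed number of edges -/
theorem exists_sub {V : Type} [Fintype V] (G : SimpleGraph V) (f : ℕ) (h : 2 * f ≤ D G univ) :
    ∃ G' ≤ G, D G' univ = 2 * f := by
  classical
  rw [D_univ, ← coe_edgeFinset, Set.ncard_coe_finset] at h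
  obtain ⟨E, hE, hc⟩ := Finset.exists_subset_card_eq (show f ≤ G.edgeFinset.card by omega)
  have hE' : (E : Set (Sym2 V)) ⊆ G.edgeSet := by
    rw [← coe_edgeFinset]
    exact_mod_cast hE
  have h1 : (fromEdgeSet (E : Set (Sym2 V))).edgeSet = (E : Set (Sym2 V)) := by
    rw [edgeSet_fromEdgeSet]
    ext e
    rw [Set.mem_sdiff]
    constructor
    · exact fun h => h.1
    · intro he
      exact ⟨he, G.not_isDiag_of_mem_edgeSet (hE' he)⟩
  refine ⟨fromEdgeSet (E : Set (Sym2 V)), ?_, ?_⟩
  · rw [← edgeSet_subset_edgeSet, h1]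
    exact hE'
  · rw [D_univ, h1, Set.ncard_coe_finset, hc]

/-! ### sparse bipartite graphs -/

/-- The property of the sparse part. -/
def P {V : Type} (F : SimpleGraph V) : Prop :=
  (∀ S : Finset V, 2 * D F S ≤ S.card * S.card) ∧ ∀ S : Finset V, S.card = 9 → D F S ≤ 34

theorem P_mono {V : Type} {F F' : SimpleGraph V} (h : F' ≤ F) (hF : P F) : P F' :=
  ⟨fun S => le_trans (Nat.mul_le_mul_left 2 (D_mono h S)) (hF.1 S),
    fun S hS => (D_mono h S).trans (hF.2 S hS)⟩

theorem P_comap {V W : Type} (f : W ↪ V) (F : SimpleGraph V) (hF : P F) : P (F.comap f) := by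
  refine ⟨fun S => ?_, fun S hS => ?_⟩
  · rw [D_comap]
    have := hF.1 (S.map f)
    rwa [card_map] at this
  · rw [D_comap]
    exact hF.2 _ (by rw [card_map, hS])

theorem D_bipartite {V : Type} (F : SimpleGraph V) (c : V → Bool)
    (hc : ∀ x y, F.Adj x y → c x ≠ c y) (S : Finset V) : 2 * D F S ≤ S.card * S.card := by
  classical
  set a := (S.filter fun x => c x = true).card with ha
  set b := (S.filter fun x => ¬ c x = true).card with hb
  have hab : a + b = S.card := Finset.card_filter_add_card_filter_not _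
  have h1 : D F S ≤ a * b + b * a := by
    rw [D_eq, ← Finset.sum_filter_add_sum_filter_not S (fun x => c x = true)]
    apply Nat.add_le_add
    · rw [ha, ← smul_eq_mul]
      apply Finset.sum_le_card_nsmul
      intro x hx
      rw [mem_filter] at hx
      rw [← Finset.card_filter]
      apply Finset.card_le_card
      intro y hy
      rw [mem_filter] at hy ⊢
      refine ⟨hy.1, fun h => hc x y hy.2 (hx.2.trans h.symm)⟩
    · rw [hb, ← smul_eq_mul]
      apply Finset.sum_le_card_nsmul
      intro x hx
      rw [mem_filter] at hx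
      rw [← Finset.card_filter]
      apply Finset.card_le_card
      intro y hy
      rw [mem_filter] at hy ⊢
      refine ⟨hy.1, ?_⟩
      have := hc x y hy.2
      have h2 := hx.2
      cases hcx : c x <;> cases hcy : c y <;> simp_all
  have h2 : 4 * (a * b) ≤ (a + b) * (a + b) := by nlinarith [sq_nonneg ((a : ℤ) - b), Nat.le_total a b]
  rw [← hab]
  nlinarith

theorem P_sum {V W : Type} (F : SimpleGraph V) (H : SimpleGraph W) (hF : P F) (hH : P H) :
    P (F ⊕g H) := by
  have hcard : ∀ S : Finset (V ⊕ W), S.toLeft.card + S.toRight.card = S.card := fun S =>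
    Finset.card_toLeft_add_card_toRight
  refine ⟨fun S => ?_, fun S hS => ?_⟩
  · rw [D_sum, ← hcard S]
    have h1 := hF.1 S.toLeft
    have h2 := hH.1 S.toRight
    nlinarith
  · rw [D_sum]
    have h0 := hcard S
    rw [hS] at h0
    by_cases h9 : S.toLeft.card = 9
    · have h1 := hF.2 S.toLeft h9
      have h2 := hH.1 S.toRight
      have h3 : S.toRight.card = 0 := by omega
      rw [h3] at h2
      omega
    · by_cases h9' : S.toRight.card = 9
      · have h1 := hH.2 S.toRight h9'
        have h2 := hF.1 S.toLeft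
        have h3 : S.toLeft.card = 0 := by omega
        rw [h3] at h2
        omega
      · have h1 := hF.1 S.toLeft
        have h2 := hH.1 S.toRight
        generalize S.toLeft.card = x at *
        generalize S.toRight.card = y at *
        have hx : x ≤ 8 := by omega
        have hy : y = 9 - x := by omega
        subst hy
        interval_cases x <;> omega

/-- `K_{⌊r/2⌋,⌈r/2⌉}` -/
def cb (r : ℕ) : SimpleGraph (Fin r) where
  Adj x y := x.val % 2 ≠ y.val % 2
  symm := ⟨fun _ _ h => h.symm⟩
  loopless := ⟨fun _ h => h rfl⟩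

instance (r : ℕ) : DecidableRel (cb r).Adj := fun x y =>
  inferInstanceAs (Decidable (x.val % 2 ≠ y.val % 2))

/-- the first `r` vertices of `K_{6,6}` minus a perfect matching -/
def blk (r : ℕ) : SimpleGraph (Fin r) where
  Adj x y := x.val % 2 ≠ y.val % 2 ∧ x.val / 2 ≠ y.val / 2
  symm := ⟨fun _ _ h => ⟨h.1.symm, h.2.symm⟩⟩
  loopless := ⟨fun _ h => h.1 rfl⟩

instance (r : ℕ) : DecidableRel (blk r).Adj := fun x y =>
  inferInstanceAs (Decidable (x.val % 2 ≠ y.val % 2 ∧ x.val / 2 ≠ y.val / 2))

theorem cb_P (r : ℕ) (hr : r ≤ 8) : P (cb r) := by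
  refine ⟨D_bipartite (cb r) (fun x => decide (x.val % 2 = 0)) ?_, ?_⟩
  · intro x y hxy
    change x.val % 2 ≠ y.val % 2 at hxy
    simp only [ne_eq, decide_eq_decide]
    omega
  · intro S hS
    have := card_le_univ S
    rw [hS, Fintype.card_fin] at this
    omega

theorem blk12_degree : ∀ x : Fin 12, (∑ y, if (blk 12).Adj x y then 1 else 0) = 5 := by
  decide +kernel

theorem blk_P (r : ℕ) (hr : r ≤ 12) : P (blk r) := by
  have h12 : P (blk 12) := by
    have hbip : ∀ S, 2 * D (blk 12) S ≤ S.card * S.card := by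
      apply D_bipartite (blk 12) (fun x => decide (x.val % 2 = 0))
      intro x y hxy
      have hxy' : x.val % 2 ≠ y.val % 2 := hxy.1
      simp only [ne_eq, decide_eq_decide]
      omega
    refine ⟨hbip, ?_⟩
    intro S hS
    have hdeg : ∀ x, (blk 12).degree x = 5 := by
      intro x
      rw [← blk12_degree x, ← card_neighborFinset_eq_degree, ← Finset.card_filter]
      congr 1
      ext y
      simp
    have h1 := D_removal (blk 12) S
    simp_rw [hdeg] at h1
    have h2 : Sᶜ.card = 3 := by rw [card_compl, hS, Fintype.card_fin]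
    have h3 : D (blk 12) univ = 60 := by
      rw [D_eq]
      simp_rw [blk12_degree]
      simp
    have h4 := hbip Sᶜ
    rw [h2] at h4
    rw [Finset.sum_const, h2, smul_eq_mul, h3] at h1
    omega
  exact P_comap (Fin.castLEEmb hr) (blk 12) h12

theorem cb_edges (r : ℕ) (hr : r ≤ 8) : D (cb r) univ = 2 * (r * r / 4) := by
  rw [D_eq]
  interval_cases r <;> decide

theorem blk_edges (r : ℕ) (h9 : 9 ≤ r) (hr : r ≤ 12) :
    5 * r ≤ D (blk r) univ + 13 ∧ (r = 12 → 60 ≤ D (blk r) univ) := by
  rw [D_eq]
  interval_cases r <;> decide +kernel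

theorem exists_sparse (m : ℕ) : ∃ F : SimpleGraph (Fin m), P F ∧ 5 * m ≤ D F univ + 13 := by
  induction m using Nat.strong_induction_on with
  | _ m ih =>
    by_cases h8 : m ≤ 8
    · refine ⟨cb m, cb_P m h8, ?_⟩
      rw [cb_edges m h8]
      interval_cases m <;> simp
    · by_cases h12 : m < 12
      · exact ⟨blk m, blk_P m h12.le, (blk_edges m (by omega) h12.le).1⟩
      · obtain ⟨F, hF, hE⟩ := ih (m - 12) (by omega)
        have e : Fin m ≃ Fin (m - 12) ⊕ Fin 12 :=
          (finCongr (by omega)).trans finSumFinEquiv.symm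
        refine ⟨(F ⊕g blk 12).comap e.toEmbedding, P_comap _ _ (P_sum F _ hF (blk_P 12 le_rfl)), ?_⟩
        rw [D_comap, D_sum]
        have h1 : (univ : Finset (Fin m)).map e.toEmbedding = univ := by simp
        rw [h1]
        have h2 : (univ : Finset (Fin (m - 12) ⊕ Fin 12)).toLeft = univ := by ext; simp
        have h3 : (univ : Finset (Fin (m - 12) ⊕ Fin 12)).toRight = univ := by ext; simp
        rw [h2, h3]
        have h4 := (blk_edges 12 (by norm_num) le_rfl).2 rfl
        omega

/-! ### good pairs -/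

/-- There is a graph with `n` vertices and `e` edges in which no nine vertices span `18` edges. -/
def Good (n e : ℕ) : Prop :=
  ∃ G : SimpleGraph (Fin n), D G univ = 2 * e ∧ ∀ S : Finset (Fin n), S.card = 9 → D G S ≠ 36

theorem good_compl {n e : ℕ} (h : Good n e) (he : e ≤ n.choose 2) : Good n (n.choose 2 - e) := by
  obtain ⟨G, hG, hS⟩ := h
  have hch : 2 * n.choose 2 + n = n * n := by
    rw [Nat.choose_two_right, Nat.mul_div_cancel' (Nat.even_mul_pred_self n).two_dvd]
    cases n with
    | zero => rfl
    | succ k => simp; ring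
  refine ⟨Gᶜ, ?_, ?_⟩
  · have h1 := D_compl G univ
    rw [card_univ, Fintype.card_fin] at h1
    omega
  · intro S h9 h36
    have h1 := D_compl G S
    rw [h9] at h1
    exact hS S h9 (by omega)

theorem good_of_rep {n e a m μ f : ℕ} (hn : a + m = n) (hμ : μ ≤ 2)
    (he : e + μ = a.choose 2 + f) (h8 : m ≤ 8 → f ≤ m * m / 4) (h9 : 9 ≤ m → 2 * f + 13 ≤ 5 * m) :
    Good n e := by
  classical
  -- the sparse part
  obtain ⟨F, hF, hFe⟩ : ∃ F : SimpleGraph (Fin m), P F ∧ D F univ = 2 * f := by
    obtain ⟨F0, h0, h1⟩ : ∃ F0 : SimpleGraph (Fin m), P F0 ∧ 2 * f ≤ D F0 univ := by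
      by_cases hm : m ≤ 8
      · refine ⟨cb m, cb_P m hm, ?_⟩
        rw [cb_edges m hm]
        have := h8 hm
        omega
      · obtain ⟨F0, h0, h1⟩ := exists_sparse m
        have := h9 (by omega)
        exact ⟨F0, h0, by omega⟩
    obtain ⟨F, h2, h3⟩ := exists_sub F0 f h1
    exact ⟨F, P_mono h2 h0, h3⟩
  -- the dense part
  have hch : 2 * a.choose 2 + a = a * a := by
    rw [Nat.choose_two_right, Nat.mul_div_cancel' (Nat.even_mul_pred_self a).two_dvd]
    cases a with
    | zero => rfl
    | succ k => simp; ring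
  have hbot : ∀ S : Finset (Fin a), D (⊥ : SimpleGraph (Fin a)) S = 0 := by
    intro S
    rw [D_eq]
    simp
  have htop : ∀ S : Finset (Fin a), D (⊤ : SimpleGraph (Fin a)) S + S.card = S.card * S.card := by
    intro S
    have h1 := D_compl (⊤ : SimpleGraph (Fin a)) S
    rw [compl_top, hbot] at h1
    omega
  obtain ⟨K, _, hK⟩ := exists_sub (⊤ : SimpleGraph (Fin a)) (a.choose 2 - μ) (by
    have h1 := htop univ
    rw [card_univ, Fintype.card_fin] at h1
    omega)
  by_cases hμ' : a.choose 2 < μ
  · -- degenerate: then `e` is tiny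
    have ha : a ≤ 2 := by
      by_contra hcon
      have : 3 ≤ a := by omega
      nlinarith
    -- use `f` edges and `a` isolated vertices, adjusting the number of edges
    have hef : e ≤ f := by omega
    obtain ⟨F', h2, h3⟩ := exists_sub F e (by omega)
    have hF' := P_mono h2 hF
    have e1 : Fin n ≃ Fin a ⊕ Fin m := (finCongr hn.symm).trans finSumFinEquiv.symm
    refine ⟨((⊥ : SimpleGraph (Fin a)) ⊕g F').comap e1.toEmbedding, ?_, ?_⟩
    · rw [D_comap, D_sum]
      have h1 : (univ : Finset (Fin n)).map e1.toEmbedding = univ := by simp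
      rw [h1]
      have h4 : (univ : Finset (Fin a ⊕ Fin m)).toRight = univ := by ext; simp
      rw [h4, hbot, h3]
      omega
    · intro S hS
      rw [D_comap, D_sum, hbot]
      have hc : (S.map e1.toEmbedding).toLeft.card + (S.map e1.toEmbedding).toRight.card = 9 := by
        rw [Finset.card_toLeft_add_card_toRight, card_map, hS]
      by_cases h9' : (S.map e1.toEmbedding).toRight.card = 9
      · have := hF'.2 _ h9'
        omega
      · have h5 := hF'.1 (S.map e1.toEmbedding).toRight
        have h6 : (S.map e1.toEmbedding).toRight.card ≤ 8 := by omega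
        have h7 := Nat.mul_le_mul h6 h6
        omega
  · have hmiss : ∀ S : Finset (Fin a), S.card * S.card ≤ D K S + S.card + 4 ∧
        D K S + S.card ≤ S.card * S.card := by
      intro S
      have h1 := D_compl K S
      have h2 := D_compl K univ
      rw [card_univ, Fintype.card_fin] at h2
      have h3 := D_subset Kᶜ (subset_univ S)
      omega
    have e1 : Fin n ≃ Fin a ⊕ Fin m := (finCongr hn.symm).trans finSumFinEquiv.symm
    refine ⟨(K ⊕g F).comap e1.toEmbedding, ?_, ?_⟩
    · rw [D_comap, D_sum]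
      have h1 : (univ : Finset (Fin n)).map e1.toEmbedding = univ := by simp
      rw [h1]
      have h2 : (univ : Finset (Fin a ⊕ Fin m)).toLeft = univ := by ext; simp
      have h4 : (univ : Finset (Fin a ⊕ Fin m)).toRight = univ := by ext; simp
      rw [h2, h4, hK, hFe]
      omega
    · intro S hS
      rw [D_comap, D_sum]
      have hc : (S.map e1.toEmbedding).toLeft.card + (S.map e1.toEmbedding).toRight.card = 9 := by
        rw [Finset.card_toLeft_add_card_toRight, card_map, hS]
      have h1 := hmiss (S.map e1.toEmbedding).toLeft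
      have h2 := hF.1 (S.map e1.toEmbedding).toRight
      have h3 := hF.2 (S.map e1.toEmbedding).toRight
      generalize D K (S.map e1.toEmbedding).toLeft = p at *
      generalize D F (S.map e1.toEmbedding).toRight = q at *
      generalize (S.map e1.toEmbedding).toLeft.card = i at *
      generalize (S.map e1.toEmbedding).toRight.card = j at *
      have hj : j = 9 - i := by omega
      subst hj
      have hi : i ≤ 9 := by omega
      interval_cases i <;> simp at h1 h2 h3 ⊢ <;> omega

/-- the special graph with 12 vertices and 33 edges -/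
def special : SimpleGraph (Fin 12) where
  Adj x y := x ≠ y ∧ (10 ≤ x.val ∨ 10 ≤ y.val ∨ (x.val + 1) % 10 = y.val ∨ (y.val + 1) % 10 = x.val ∨
    (x.val + 5 = y.val ∧ x.val < 2) ∨ (y.val + 5 = x.val ∧ y.val < 2))
  symm := ⟨fun _ _ h => ⟨h.1.symm, by tauto⟩⟩
  loopless := ⟨fun _ h => h.1 rfl⟩

instance : DecidableRel special.Adj := fun x y =>
  inferInstanceAs (Decidable (x ≠ y ∧ (10 ≤ x.val ∨ 10 ≤ y.val ∨ (x.val + 1) % 10 = y.val ∨
    (y.val + 1) % 10 = x.val ∨
    (x.val + 5 = y.val ∧ x.val < 2) ∨ (y.val + 5 = x.val ∧ y.val < 2))))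

/-- the degrees of the special graph -/
def sdeg (x : Fin 12) : ℕ :=
  if 10 ≤ x.val then 11 else if x.val = 0 ∨ x.val = 1 ∨ x.val = 5 ∨ x.val = 6 then 5 else 4

theorem special_degree : ∀ x : Fin 12, (∑ y, if special.Adj x y then 1 else 0) = sdeg x := by
  decide +kernel

theorem special_triple : ∀ a b c : Fin 12, a ≠ b → a ≠ c → b ≠ c →
    sdeg a + sdeg b + sdeg c ≠ 15 + ((if special.Adj a b then 1 else 0) +
      (if special.Adj a c then 1 else 0) + (if special.Adj b c then 1 else 0)) := by
  decide +kernel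

theorem good_special : Good 12 33 := by
  have hD : D special univ = 66 := by
    rw [D_eq]
    simp_rw [special_degree]
    decide
  refine ⟨special, hD, ?_⟩
  intro S hS h36
  have hdeg : ∀ x, special.degree x = sdeg x := by
    intro x
    rw [← special_degree x, ← card_neighborFinset_eq_degree, ← Finset.card_filter]
    congr 1
    ext y
    simp
  have h1 := D_removal special S
  simp_rw [hdeg] at h1
  have h2 : Sᶜ.card = 3 := by rw [card_compl, hS, Fintype.card_fin]
  obtain ⟨a, b, c, hab, hac, hbc, hT⟩ := Finset.card_eq_three.1 h2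
  rw [hT, h36, hD, D_eq] at h1
  have hs1 : a ∉ ({b, c} : Finset (Fin 12)) := by simp [hab, hac]
  have hs2 : b ∉ ({c} : Finset (Fin 12)) := by simp [hbc]
  have e1 := special.adj_comm b a
  have e2 := special.adj_comm c a
  have e3 := special.adj_comm c b
  simp only [Finset.sum_insert hs1, Finset.sum_insert hs2, Finset.sum_singleton,
    SimpleGraph.irrefl, if_false, e1, e2, e3] at h1
  have h3 := special_triple a b c hab hac hbc
  omega

theorem exists_level (e : ℕ) : ∃ a : ℕ, a.choose 2 ≤ e + 2 ∧ e + 2 < a.choose 2 + a := by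
  have hex : ∃ b : ℕ, e + 2 < (b + 1).choose 2 := by
    refine ⟨e + 3, ?_⟩
    have : 2 * (e + 3 + 1).choose 2 + (e + 3 + 1) = (e + 3 + 1) * (e + 3 + 1) := by
      rw [Nat.choose_two_right, Nat.mul_div_cancel' (Nat.even_mul_pred_self _).two_dvd]
      simp
      ring
    nlinarith
  classical
  refine ⟨Nat.find hex, ?_, ?_⟩
  · rcases Nat.eq_zero_or_pos (Nat.find hex) with h | h
    · rw [h]; simp
    · have h1 := Nat.find_min hex (m := Nat.find hex - 1) (by omega)
      have h2 : Nat.find hex - 1 + 1 = Nat.find hex := by omega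
      rw [h2] at h1
      omega
  · have h1 := Nat.find_spec hex
    have h2 : (Nat.find hex + 1).choose 2 = Nat.find hex + (Nat.find hex).choose 2 := by
      rw [Nat.choose_succ_succ' _ 1, Nat.choose_one_right]
    omega

theorem rep {n e : ℕ} (hn : 10 ≤ n) (he : 4 * e + n ≤ n * n) (h1 : ¬ (n = 12 ∧ e = 33))
    (h2 : ¬ (n = 15 ∧ e = 52)) : Good n e := by
  obtain ⟨a, ha1, ha2⟩ := exists_level e
  have hch : 2 * a.choose 2 + a = a * a := by
    rw [Nat.choose_two_right, Nat.mul_div_cancel' (Nat.even_mul_pred_self a).two_dvd]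
    cases a with
    | zero => rfl
    | succ k => simp; ring
  have han : a ≤ n := by
    by_contra hcon
    push Not at hcon
    nlinarith
  obtain ⟨m, rfl⟩ := Nat.exists_eq_add_of_le han
  by_cases hc2 : a.choose 2 ≤ e
  · obtain ⟨f, rfl⟩ := Nat.exists_eq_add_of_le hc2
    refine good_of_rep (a := a) (m := m) (μ := 0) (f := f) rfl (by norm_num) (by omega) ?_ ?_
    · intro hm
      have hab : a ≤ 30 := by
        by_contra hcon
        push Not at hcon
        nlinarith
      generalize a.choose 2 = c at *
      interval_cases m <;> interval_cases a <;> omega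
    · intro hm
      by_contra hcon
      push Not at hcon
      -- `2f ≥ 5m - 12` and `a ≥ f + 3`
      have k1 : (5 : ℤ) * m ≤ 2 * f + 12 := by omega
      have k2 : (f : ℤ) + 3 ≤ a := by omega
      have k3 : (5 : ℤ) * m ≤ 2 * a + 6 := by linarith
      have k4 : (2 : ℤ) * a.choose 2 + a = a * a := by exact_mod_cast hch
      have k5 : (4 : ℤ) * (a.choose 2 + f) + (a + m) ≤ (a + m) * (a + m) := by exact_mod_cast he
      have k6 : (9 : ℤ) ≤ m := by exact_mod_cast hm
      have k7 : 0 ≤ ((2 : ℤ) * a - (5 * m - 6)) * (2 * a + m - 8) := by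
        apply mul_nonneg <;> linarith
      nlinarith
  · refine good_of_rep (a := a) (m := m) (μ := a.choose 2 - e) (f := 0) rfl (by omega) (by omega)
      (fun _ => Nat.zero_le _) (fun h => by omega)

theorem good_all {n e : ℕ} (hn : 10 ≤ n) (he : e ≤ n.choose 2) : Good n e := by
  have hch : 2 * n.choose 2 + n = n * n := by
    rw [Nat.choose_two_right, Nat.mul_div_cancel' (Nat.even_mul_pred_self n).two_dvd]
    cases n with
    | zero => rfl
    | succ k => simp; ring
  have half : ∀ e, 4 * e + n ≤ n * n → Good n e := by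
    intro e he
    by_cases h1 : n = 12 ∧ e = 33
    · rw [h1.1, h1.2]; exact good_special
    · by_cases h2 : n = 15 ∧ e = 52
      · rw [h2.1, h2.2]
        have h53 : Good 15 53 := good_of_rep (a := 11) (m := 4) (μ := 2) (f := 0) rfl le_rfl
          (by decide) (fun _ => Nat.zero_le _) (fun h => by omega)
        have := good_compl h53 (by decide)
        exact this
      · exact rep hn he h1 h2
  by_cases h : 4 * e + n ≤ n * n
  · exact half e h
  · have h3 := good_compl (half (n.choose 2 - e) (by omega)) (Nat.sub_le _ _)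
    have h4 : n.choose 2 - (n.choose 2 - e) = e := by omega
    rwa [h4] at h3

theorem choose_nine : Nat.choose 9 2 - 18 = 18 := by decide

/-- Full determination of the pairs `(n,e)` with `(n,e) → (9,18)`. -/
theorem result : ∀ n e : ℕ, 9 ≤ n → e ≤ n.choose 2 →
    (Arrow n e 9 18 ↔ n = 9 ∧ e = 18) := by
  intro n e hn he
  constructor
  · intro h
    rcases Nat.eq_or_lt_of_le hn with h9 | h10
    · subst h9
      refine ⟨rfl, ?_⟩
      obtain ⟨G, _, hG⟩ := exists_sub (⊤ : SimpleGraph (Fin 9)) e (by
        have h1 := D_compl (⊤ : SimpleGraph (Fin 9)) univ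
        have h2 : D (⊥ : SimpleGraph (Fin 9)) univ = 0 := by
          classical
          rw [D_eq]; simp
        rw [compl_top, h2, card_univ, Fintype.card_fin] at h1
        have h3 : Nat.choose 9 2 = 36 := by decide
        omega)
      obtain ⟨S, hS, hor⟩ := h G (by rw [D_univ] at hG; omega)
      rw [choose_nine, or_self] at hor
      have hSu : S = univ := by
        apply Finset.eq_univ_of_card
        rw [hS, Fintype.card_fin]
      have h1 := D_spanned G S
      rw [hSu] at h1 hor
      omega
    · exfalso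
      obtain ⟨G, hG, hS⟩ := good_all (show 10 ≤ n by omega) he
      obtain ⟨S, hS9, hor⟩ := h G (by rw [D_univ] at hG; omega)
      rw [choose_nine, or_self] at hor
      apply hS S hS9
      rw [D_spanned, hor]
  · rintro ⟨rfl, rfl⟩
    intro G hG
    refine ⟨univ, by simp, Or.inl ?_⟩
    have h1 := D_spanned G univ
    rw [D_univ] at h1
    omega

end Pool.Agent.Results.MP_3da5e8_co.OnlyTrivialPair
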